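import Pool.Agent.Helper97.EN.PotS

/-!
# Sweeping (identification of the limit in a bounded open set), part 1: the kernel

`v` is smooth on the plane, superharmonic, equal to the fundamental solution `Phi` outside the disc of radius `r`, and at most
`Phi` elsewhere.
-/

open MeasureTheory Real Set Filter Topology

namespace SW

open EN

/-- smooth step from `0` (for `t ≤ r ^ 2 / 2`) to `1` (for `t ≥ r ^ 2`) -/
noncomputable def M (r t : ℝ) : ℝ := Real.smoothTransition (2 * t / r ^ 2 - 1)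

noncomputable def q (r t : ℝ) : ℝ := M r t / t

noncomputable def L (r s : ℝ) : ℝ := log (r ^ 2) + ∫ t in (r ^ 2)..s, q r t

/-- the modified kernel -/
noncomputable def v (r : ℝ) (z : Pl) : ℝ := -(1 / (4 * π)) * L r (z.1 ^ 2 + z.2 ^ 2)

lemma M_smooth (r : ℝ) : ContDiff ℝ (⊤ : ℕ∞) (M r) := by
  unfold M
  exact Real.smoothTransition.contDiff.comp (((contDiff_const.mul contDiff_id).div_const _).sub contDiff_const)

lemma M_mono {r : ℝ} (hr : 0 < r) : Monotone (M r) := by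
  intro a b hab
  unfold M
  apply Real.smoothTransition.monotone
  have : 2 * a / r ^ 2 ≤ 2 * b / r ^ 2 := by gcongr
  linarith

lemma M_zero {r t : ℝ} (hr : 0 < r) (ht : t ≤ r ^ 2 / 2) : M r t = 0 := by
  unfold M
  apply Real.smoothTransition.zero_of_nonpos
  have h2 : 0 < r ^ 2 := by positivity
  rw [sub_nonpos, div_le_one h2]
  linarith

lemma M_one {r t : ℝ} (hr : 0 < r) (ht : r ^ 2 ≤ t) : M r t = 1 := by
  unfold M
  apply Real.smoothTransition.one_of_one_le
  have h2 : 0 < r ^ 2 := by positivity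
  have h3 : 2 ≤ 2 * t / r ^ 2 := by
    rw [le_div_iff₀ h2]
    linarith
  linarith

lemma M_le (r t : ℝ) : M r t ≤ 1 := Real.smoothTransition.le_one _

lemma M_nonneg (r t : ℝ) : 0 ≤ M r t := Real.smoothTransition.nonneg _

lemma q_zero {r t : ℝ} (hr : 0 < r) (ht : t ≤ r ^ 2 / 2) : q r t = 0 := by
  unfold q
  rw [M_zero hr ht, zero_div]

lemma q_smooth {r : ℝ} (hr : 0 < r) : ContDiff ℝ (⊤ : ℕ∞) (q r) := by
  rw [contDiff_iff_contDiffAt]
  intro t
  have h2 : 0 < r ^ 2 := by positivity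
  rcases lt_or_ge t (r ^ 2 / 2) with h | h
  · have h3 : q r =ᶠ[𝓝 t] fun _ => 0 := by
      filter_upwards [Iio_mem_nhds h] with s hs
      exact q_zero hr (le_of_lt hs)
    exact contDiffAt_const.congr_of_eventuallyEq h3
  · have ht : t ≠ 0 := by linarith
    unfold q
    exact (M_smooth r).contDiffAt.div contDiffAt_id ht

lemma q_mul {r : ℝ} (hr : 0 < r) (t : ℝ) : t * q r t = M r t := by
  rcases eq_or_ne t 0 with h | h
  · subst h
    rw [zero_mul, M_zero hr (by positivity)]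
  · unfold q
    field_simp

lemma L_has {r : ℝ} (hr : 0 < r) (s : ℝ) : HasDerivAt (L r) (q r s) s := by
  have h := ((q_smooth hr).continuous.integral_hasStrictDerivAt (r ^ 2) s).hasDerivAt
  exact h.const_add (log (r ^ 2))

lemma L_smooth {r : ℝ} (hr : 0 < r) : ContDiff ℝ (⊤ : ℕ∞) (L r) := by
  rw [contDiff_infty_iff_deriv]
  refine ⟨fun s => (L_has hr s).differentiableAt, ?_⟩
  have h : deriv (L r) = q r := funext fun s => (L_has hr s).deriv
  rw [h]
  exact q_smooth hr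

lemma L_eq {r s : ℝ} (hr : 0 < r) (hs : r ^ 2 ≤ s) : L r s = log s := by
  have h2 : 0 < r ^ 2 := by positivity
  unfold L
  have h : ∫ t in (r ^ 2)..s, q r t = ∫ t in (r ^ 2)..s, 1 / t := by
    apply intervalIntegral.integral_congr
    intro t ht
    rw [uIcc_of_le hs] at ht
    simp only [q]
    rw [M_one hr ht.1]
  have hs0 : s ≠ 0 := by linarith
  rw [h, integral_one_div_of_pos h2 (by linarith), Real.log_div hs0 h2.ne']
  ring

lemma L_ge {r s : ℝ} (hr : 0 < r) (hs : 0 < s) : log s ≤ L r s := by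
  have h2 : 0 < r ^ 2 := by positivity
  rcases le_or_gt (r ^ 2) s with h | h
  · rw [L_eq hr h]
  · unfold L
    rw [intervalIntegral.integral_symm]
    have h3 : ∫ t in s..(r ^ 2), q r t ≤ ∫ t in s..(r ^ 2), 1 / t := by
      apply intervalIntegral.integral_mono_on h.le
      · exact (q_smooth hr).continuous.intervalIntegrable _ _
      · apply intervalIntegral.intervalIntegrable_one_div
        · intro t ht
          rw [uIcc_of_le h.le] at ht
          have := ht.1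
          linarith
        · exact continuousOn_id
      · intro t ht
        have ht0 : 0 < t := lt_of_lt_of_le hs ht.1
        unfold q
        gcongr
        exact M_le r t
    rw [integral_one_div_of_pos hs h2, Real.log_div (by positivity) (by positivity)] at h3
    linarith

lemma L_const {r s : ℝ} (hr : 0 < r) (hs : s ≤ r ^ 2 / 2) : L r s = L r (r ^ 2 / 2) := by
  unfold L
  have h1 : ∫ t in (r ^ 2)..s, q r t = (∫ t in (r ^ 2)..(r ^ 2 / 2), q r t) + ∫ t in (r ^ 2 / 2)..s, q r t := by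
    rw [intervalIntegral.integral_add_adjacent_intervals]
    · exact (q_smooth hr).continuous.intervalIntegrable _ _
    · exact (q_smooth hr).continuous.intervalIntegrable _ _
  have h3 : ∫ t in (r ^ 2 / 2)..s, q r t = 0 := by
    rw [intervalIntegral.integral_symm, neg_eq_zero]
    have h4 : ∫ t in s..(r ^ 2 / 2), q r t = ∫ t in s..(r ^ 2 / 2), (0 : ℝ) := by
      apply intervalIntegral.integral_congr
      intro t ht
      rw [uIcc_of_le hs] at ht
      exact q_zero hr ht.2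
    rw [h4, intervalIntegral.integral_zero]
  rw [h1, h3, add_zero]

lemma v_smooth {r : ℝ} (hr : 0 < r) : ContDiff ℝ (⊤ : ℕ∞) (v r) := by
  unfold v
  exact contDiff_const.mul ((L_smooth hr).comp ((contDiff_fst.pow 2).add (contDiff_snd.pow 2)))

private lemma s_has (z : Pl) :
    HasFDerivAt (fun w : Pl => w.1 ^ 2 + w.2 ^ 2)
      ((2 * z.1) • ContinuousLinearMap.fst ℝ ℝ ℝ + (2 * z.2) • ContinuousLinearMap.snd ℝ ℝ ℝ) z := by
  have h1 : HasFDerivAt (fun w : Pl => w.1) (ContinuousLinearMap.fst ℝ ℝ ℝ) z := hasFDerivAt_fst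
  have h2 : HasFDerivAt (fun w : Pl => w.2) (ContinuousLinearMap.snd ℝ ℝ ℝ) z := hasFDerivAt_snd
  have h := (h1.pow 2).add (h2.pow 2)
  refine h.congr_fderiv ?_
  ext <;> simp

private lemma comp_has {F : ℝ → ℝ} {F' : ℝ} (z : Pl) (h : HasDerivAt F F' (z.1 ^ 2 + z.2 ^ 2)) :
    HasFDerivAt (fun w : Pl => F (w.1 ^ 2 + w.2 ^ 2))
      (F' • ((2 * z.1) • ContinuousLinearMap.fst ℝ ℝ ℝ + (2 * z.2) • ContinuousLinearMap.snd ℝ ℝ ℝ)) z :=
  h.comp_hasFDerivAt z (s_has z)

lemma dx_v {r : ℝ} (hr : 0 < r) : dx (v r) = fun z => -(1 / (4 * π)) * (q r (z.1 ^ 2 + z.2 ^ 2) * (2 * z.1)) := by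
  funext z
  have h := (comp_has z (L_has hr (z.1 ^ 2 + z.2 ^ 2))).const_mul (-(1 / (4 * π)))
  unfold dx
  have h2 : fderiv ℝ (v r) z = _ := h.fderiv
  rw [h2]
  simp

lemma dy_v {r : ℝ} (hr : 0 < r) : dy (v r) = fun z => -(1 / (4 * π)) * (q r (z.1 ^ 2 + z.2 ^ 2) * (2 * z.2)) := by
  funext z
  have h := (comp_has z (L_has hr (z.1 ^ 2 + z.2 ^ 2))).const_mul (-(1 / (4 * π)))
  unfold dy
  have h2 : fderiv ℝ (v r) z = _ := h.fderiv
  rw [h2]
  simp

lemma lap_v {r : ℝ} (hr : 0 < r) (z : Pl) : lap (v r) z = -(1 / π) * deriv (M r) (z.1 ^ 2 + z.2 ^ 2) := by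
  set s := z.1 ^ 2 + z.2 ^ 2 with hs
  have hq : HasDerivAt (q r) (deriv (q r) s) s :=
    ((q_smooth hr).differentiable (by simp) s).hasDerivAt
  have hM : deriv (M r) s = q r s + s * deriv (q r) s := by
    have h1 : HasDerivAt (fun t => t * q r t) (1 * q r s + s * deriv (q r) s) s := (hasDerivAt_id s).mul hq
    have h2 : (fun t => t * q r t) = M r := funext fun t => q_mul hr t
    rw [h2] at h1
    rw [h1.deriv]
    ring
  have h1 : HasFDerivAt (fun w : Pl => w.1) (ContinuousLinearMap.fst ℝ ℝ ℝ) z := hasFDerivAt_fst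
  have h2 : HasFDerivAt (fun w : Pl => w.2) (ContinuousLinearMap.snd ℝ ℝ ℝ) z := hasFDerivAt_snd
  have hx : dx (dx (v r)) z = -(1 / (4 * π)) * (deriv (q r) s * (4 * z.1 ^ 2) + 2 * q r s) := by
    rw [dx_v hr]
    have h := ((comp_has z hq).mul (h1.const_mul 2)).const_mul (-(1 / (4 * π)))
    unfold dx
    have h3 : fderiv ℝ (fun z : Pl => -(1 / (4 * π)) * (q r (z.1 ^ 2 + z.2 ^ 2) * (2 * z.1))) z = _ := h.fderiv
    rw [h3]
    simp only [_root_.smul_apply, _root_.add_apply, ContinuousLinearMap.coe_fst',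
      ContinuousLinearMap.coe_snd', smul_eq_mul, mul_one, mul_zero, add_zero]
    rw [← hs]
    ring
  have hy : dy (dy (v r)) z = -(1 / (4 * π)) * (deriv (q r) s * (4 * z.2 ^ 2) + 2 * q r s) := by
    rw [dy_v hr]
    have h := ((comp_has z hq).mul (h2.const_mul 2)).const_mul (-(1 / (4 * π)))
    unfold dy
    have h3 : fderiv ℝ (fun z : Pl => -(1 / (4 * π)) * (q r (z.1 ^ 2 + z.2 ^ 2) * (2 * z.2))) z = _ := h.fderiv
    rw [h3]
    simp only [_root_.smul_apply, _root_.add_apply, ContinuousLinearMap.coe_fst',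
      ContinuousLinearMap.coe_snd', smul_eq_mul, mul_one, mul_zero, zero_add]
    rw [← hs]
    ring
  unfold lap
  rw [hx, hy, hM]
  have hπ : π ≠ 0 := Real.pi_ne_zero
  have hs2 : z.1 ^ 2 + z.2 ^ 2 = s := hs.symm
  have e : -(1 / (4 * π)) * (deriv (q r) s * (4 * z.1 ^ 2) + 2 * q r s) +
      -(1 / (4 * π)) * (deriv (q r) s * (4 * z.2 ^ 2) + 2 * q r s) =
      -(1 / (4 * π)) * (4 * (deriv (q r) s * (z.1 ^ 2 + z.2 ^ 2) + q r s)) := by ring
  rw [e, hs2]
  field_simp
  ring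

lemma lap_v_nonpos {r : ℝ} (hr : 0 < r) (z : Pl) : lap (v r) z ≤ 0 := by
  rw [lap_v hr]
  have h : 0 ≤ deriv (M r) (z.1 ^ 2 + z.2 ^ 2) := (M_mono hr).deriv_nonneg
  have hπ : 0 < π := Real.pi_pos
  have h1 : 0 ≤ 1 / π * deriv (M r) (z.1 ^ 2 + z.2 ^ 2) := by positivity
  linarith

/-- the difference of the kernels -/
noncomputable def w (r : ℝ) (z : Pl) : ℝ := Phi z - v r z

private lemma Phi_eq' {z : Pl} : Phi z = -(1 / (4 * π)) * log (z.1 ^ 2 + z.2 ^ 2) := by
  unfold Phi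
  rw [Real.log_sqrt (by positivity)]
  ring

private lemma s_pos {z : Pl} (hz : z ≠ 0) : 0 < z.1 ^ 2 + z.2 ^ 2 := by
  rcases eq_or_ne z.1 0 with h | h
  · have h2 : z.2 ≠ 0 := fun h2 => hz (Prod.ext h h2)
    positivity
  · positivity

lemma w_nonneg {r : ℝ} (hr : 0 < r) {z : Pl} (hz : z ≠ 0) : 0 ≤ w r z := by
  unfold w v
  rw [Phi_eq']
  have h := L_ge hr (s_pos hz)
  have hπ : 0 < π := Real.pi_pos
  have h1 : 0 ≤ 1 / (4 * π) * (L r (z.1 ^ 2 + z.2 ^ 2) - log (z.1 ^ 2 + z.2 ^ 2)) :=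
    mul_nonneg (by positivity) (by linarith)
  linarith

lemma w_zero {r : ℝ} (hr : 0 < r) {z : Pl} (hz : r ≤ ‖z‖) : w r z = 0 := by
  have h1 : r ^ 2 ≤ z.1 ^ 2 + z.2 ^ 2 := by
    rw [Prod.norm_def, le_max_iff] at hz
    rcases hz with h | h
    · have h2 : r ^ 2 ≤ ‖z.1‖ ^ 2 := by gcongr
      rw [Real.norm_eq_abs, sq_abs] at h2
      nlinarith [sq_nonneg z.2]
    · have h2 : r ^ 2 ≤ ‖z.2‖ ^ 2 := by gcongr
      rw [Real.norm_eq_abs, sq_abs] at h2
      nlinarith [sq_nonneg z.1]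
  unfold w v
  rw [Phi_eq', L_eq hr h1]
  ring

lemma w_pos {r : ℝ} (hr : 0 < r) {z : Pl} (hz : z ≠ 0) (hz2 : z.1 ^ 2 + z.2 ^ 2 < r ^ 2 / 2) : 0 < w r z := by
  unfold w v
  rw [Phi_eq', L_const hr hz2.le]
  have h := L_ge hr (s := r ^ 2 / 2) (by positivity)
  have h2 : log (z.1 ^ 2 + z.2 ^ 2) < log (r ^ 2 / 2) := Real.log_lt_log (s_pos hz) hz2
  have hπ : 0 < π := Real.pi_pos
  have h1 : 0 < 1 / (4 * π) * (L r (r ^ 2 / 2) - log (z.1 ^ 2 + z.2 ^ 2)) :=
    mul_pos (by positivity) (by linarith)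
  linarith

lemma w_int {r : ℝ} (hr : 0 < r) : Integrable (w r) := by
  have h1 : IntegrableOn (w r) (bx r) := by
    unfold w
    refine (Phi_int r).sub ?_
    refine ContinuousOn.integrableOn_compact ?_ (v_smooth hr).continuous.continuousOn
    exact isCompact_Icc.prod isCompact_Icc
  refine (integrableOn_iff_integrable_of_support_subset ?_).1 h1
  intro z hz
  by_contra h
  apply hz
  apply w_zero hr
  by_contra h2
  rw [not_le] at h2
  apply h
  rw [Prod.norm_def, max_lt_iff, Real.norm_eq_abs, Real.norm_eq_abs, abs_lt, abs_lt] at h2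
  exact ⟨⟨h2.1.1.le, h2.1.2.le⟩, ⟨h2.2.1.le, h2.2.2.le⟩⟩

lemma w_mass {r : ℝ} (hr : 0 < r) : 0 < ∫ z, w r z := by
  have h0 : 0 ≤ᵐ[(volume : Measure Pl)] w r := by
    have h1 : ∀ᵐ z : Pl, z ≠ 0 := by
      rw [ae_iff]
      simp
    filter_upwards [h1] with z hz
    exact w_nonneg hr hz
  rw [integral_pos_iff_support_of_nonneg_ae h0 (w_int hr)]
  have h2 : Ioo 0 (r / 2) ×ˢ Ioo 0 (r / 2) ⊆ Function.support (w r) := by
    rintro z ⟨⟨h1, h2⟩, h3, h4⟩
    have hz : z ≠ 0 := by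
      intro h
      rw [h] at h1
      exact lt_irrefl _ h1
    refine (w_pos hr hz ?_).ne'
    nlinarith
  refine lt_of_lt_of_le ?_ (measure_mono h2)
  have h3 : IsOpen (Ioo 0 (r / 2) ×ˢ Ioo 0 (r / 2) : Set Pl) := isOpen_Ioo.prod isOpen_Ioo
  exact h3.measure_pos (volume : Measure Pl)
    ⟨(r / 4, r / 4), ⟨by constructor <;> simp only <;> linarith, by constructor <;> simp only <;> linarith⟩⟩

end SW
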