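import Pool.Agent.Helper90.SW.Ker

/-!
# Sweeping, part 2: one step

For `a ≥ 0` smooth with compact support let `u = pot a - (a ⋆ v) = a ⋆ w`.
-/

open MeasureTheory Real Set Filter Topology
open scoped Convolution

namespace SW

open EN

/-- convolution with a kernel -/
noncomputable def cv (k : Pl → ℝ) (a : Pl → ℝ) (x : Pl) : ℝ := ∫ y, a y * k (x - y)

lemma cv_conv (k a : Pl → ℝ) : cv k a = a ⋆[ContinuousLinearMap.mul ℝ ℝ, (volume : Measure Pl)] k := by
  funext x
  rfl

lemma cv_smooth {k a : Pl → ℝ} (hk : Continuous k) (ha : ContDiff ℝ (⊤ : ℕ∞) a) (hc : HasCompactSupport a) :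
    ContDiff ℝ (⊤ : ℕ∞) (cv k a) := by
  rw [cv_conv]
  exact hc.contDiff_convolution_left (ContinuousLinearMap.mul ℝ ℝ) ha hk.locallyIntegrable

private lemma dir_cv {k a : Pl → ℝ} (hk : Continuous k) (ha : ContDiff ℝ (⊤ : ℕ∞) a)
    (hc : HasCompactSupport a) (e x : Pl) :
    fderiv ℝ (cv k a) x e = cv k (fun z => fderiv ℝ a z e) x := by
  have ha1 : ContDiff ℝ 1 a := ha.of_le (by exact_mod_cast le_top)
  have h1 := (hc.hasFDerivAt_convolution_left (ContinuousLinearMap.mul ℝ ℝ) ha1
    (hk.locallyIntegrable (μ := (volume : Measure Pl))) x).fderiv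
  rw [← cv_conv] at h1
  rw [h1]
  have hex : ConvolutionExistsAt (fderiv ℝ a) k x
      ((ContinuousLinearMap.mul ℝ ℝ).precompL Pl) (volume : Measure Pl) :=
    (hc.fderiv ℝ).convolutionExists_left _ (ha1.continuous_fderiv one_ne_zero) hk.locallyIntegrable x
  unfold convolution
  rw [ContinuousLinearMap.integral_apply hex]
  rfl

lemma dx_cv {k a : Pl → ℝ} (hk : Continuous k) (ha : ContDiff ℝ (⊤ : ℕ∞) a) (hc : HasCompactSupport a) :
    dx (cv k a) = cv k (dx a) := by
  funext x
  exact dir_cv hk ha hc (1, 0) x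

lemma dy_cv {k a : Pl → ℝ} (hk : Continuous k) (ha : ContDiff ℝ (⊤ : ℕ∞) a) (hc : HasCompactSupport a) :
    dy (cv k a) = cv k (dy a) := by
  funext x
  exact dir_cv hk ha hc (0, 1) x

private lemma cv_int {k a : Pl → ℝ} (hk : Continuous k) (ha : Continuous a) (hc : HasCompactSupport a) (x : Pl) :
    Integrable (fun y => a y * k (x - y)) :=
  (ha.mul (hk.comp (continuous_const.sub continuous_id))).integrable_of_hasCompactSupport hc.mul_right

private lemma dx_refl' {f : Pl → ℝ} (hf : Differentiable ℝ f) (x z : Pl) :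
    dx (fun z => f (x - z)) z = -dx f (x - z) := by
  have h : fderiv ℝ (fun z => f (x - z)) z = _ :=
    ((hf (x - z)).hasFDerivAt.comp z ((hasFDerivAt_id z).const_sub x)).fderiv
  unfold dx
  rw [h]
  simp

private lemma dy_refl' {f : Pl → ℝ} (hf : Differentiable ℝ f) (x z : Pl) :
    dy (fun z => f (x - z)) z = -dy f (x - z) := by
  have h : fderiv ℝ (fun z => f (x - z)) z = _ :=
    ((hf (x - z)).hasFDerivAt.comp z ((hasFDerivAt_id z).const_sub x)).fderiv
  unfold dy
  rw [h]
  simp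

lemma lap_refl' {u : Pl → ℝ} (hu : ContDiff ℝ (⊤ : ℕ∞) u) (x z : Pl) :
    lap (fun z => u (x - z)) z = lap u (x - z) := by
  have hd : Differentiable ℝ u := hu.differentiable (by simp)
  have hdx : Differentiable ℝ (dx u) := (dx_smooth hu).differentiable (by simp)
  have hdy : Differentiable ℝ (dy u) := (dy_smooth hu).differentiable (by simp)
  unfold lap
  have h1 : dx (fun z => u (x - z)) = fun z => -dx u (x - z) := funext fun z => dx_refl' hd x z
  have h2 : dy (fun z => u (x - z)) = fun z => -dy u (x - z) := funext fun z => dy_refl' hd x z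
  have h3 : ∀ f : Pl → ℝ, dx (fun z => -f z) z = -dx f z := by
    intro f
    unfold dx
    rw [fderiv_fun_neg]
    simp
  have h4 : ∀ f : Pl → ℝ, dy (fun z => -f z) z = -dy f z := by
    intro f
    unfold dy
    rw [fderiv_fun_neg]
    simp
  rw [h1, h2, h3, h4, dx_refl' hdx, dy_refl' hdy]
  ring

lemma lap_cv {k a : Pl → ℝ} (hk : ContDiff ℝ (⊤ : ℕ∞) k) (ha : ContDiff ℝ (⊤ : ℕ∞) a)
    (hc : HasCompactSupport a) (x : Pl) : lap (cv k a) x = ∫ y, a y * lap k (x - y) := by
  have hkc := hk.continuous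
  have h1 : lap (cv k a) x = cv k (lap a) x := by
    unfold lap
    rw [dx_cv hkc ha hc, dx_cv hkc (dx_smooth ha) (dx_supp hc), dy_cv hkc ha hc,
      dy_cv hkc (dy_smooth ha) (dy_supp hc)]
    unfold cv
    rw [← integral_add (cv_int hkc (dx_smooth (dx_smooth ha)).continuous (dx_supp (dx_supp hc)) x)
      (cv_int hkc (dy_smooth (dy_smooth ha)).continuous (dy_supp (dy_supp hc)) x)]
    refine integral_congr_ae (Eventually.of_forall fun y => ?_)
    simp only
    ring
  rw [h1]
  have h2 := parts_lap (φ := fun y => k (x - y)) (hk.comp (contDiff_const.sub contDiff_id)) ha hc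
  have h3 : cv k (lap a) x = ∫ y, k (x - y) * lap a y := by
    unfold cv
    refine integral_congr_ae (Eventually.of_forall fun y => ?_)
    simp only
    ring
  rw [h3, h2]
  refine integral_congr_ae (Eventually.of_forall fun y => ?_)
  simp only
  rw [lap_refl' hk]
  ring

/-- the swept potential -/
noncomputable def up (r : ℝ) (a : Pl → ℝ) (x : Pl) : ℝ := pot a x - cv (v r) a x

lemma up_smooth {r : ℝ} (hr : 0 < r) {a : Pl → ℝ} (ha : ContDiff ℝ (⊤ : ℕ∞) a) (hc : HasCompactSupport a) :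
    ContDiff ℝ (⊤ : ℕ∞) (up r a) :=
  (pot_smooth ha hc).sub (cv_smooth (v_smooth hr).continuous ha hc)

lemma up_eq {r : ℝ} (hr : 0 < r) {a : Pl → ℝ} (ha : Continuous a) (hc : HasCompactSupport a) (x : Pl) :
    up r a x = ∫ y, a y * w r (x - y) := by
  unfold up pot cv w
  rw [← integral_sub (ker_int1 ha hc x) (cv_int (v_smooth hr).continuous ha hc x)]
  refine integral_congr_ae (Eventually.of_forall fun y => ?_)
  simp only
  ring

lemma up_nonneg {r : ℝ} (hr : 0 < r) {a : Pl → ℝ} (ha : Continuous a) (hc : HasCompactSupport a)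
    (h0 : ∀ z, 0 ≤ a z) (x : Pl) : 0 ≤ up r a x := by
  rw [up_eq hr ha hc]
  apply integral_nonneg_of_ae
  have h1 : ∀ᵐ y : Pl, y ≠ x := by
    rw [ae_iff]
    simp
  filter_upwards [h1] with y hy
  exact mul_nonneg (h0 y) (w_nonneg hr (sub_ne_zero.2 (Ne.symm hy)))

lemma up_zero {r : ℝ} (hr : 0 < r) {a : Pl → ℝ} (ha : Continuous a) (hc : HasCompactSupport a) {S : Set Pl}
    (hS : ∀ z, z ∉ S → a z = 0) {x : Pl} (hx : x ∉ Metric.cthickening r S) : up r a x = 0 := by
  rw [up_eq hr ha hc]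
  rw [← integral_zero Pl ℝ]
  refine integral_congr_ae (Eventually.of_forall fun y => ?_)
  simp only
  by_cases hy : y ∈ S
  · have h1 : r ≤ ‖x - y‖ := by
      by_contra h2
      rw [not_le] at h2
      apply hx
      apply Metric.mem_cthickening_of_dist_le x y r S hy
      rw [dist_eq_norm]
      exact h2.le
    rw [w_zero hr h1, mul_zero]
  · rw [hS y hy, zero_mul]

lemma lap_up {r : ℝ} (hr : 0 < r) {a : Pl → ℝ} (ha : ContDiff ℝ (⊤ : ℕ∞) a) (hc : HasCompactSupport a)
    (h0 : ∀ z, 0 ≤ a z) (x : Pl) : -a x ≤ lap (up r a) x := by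
  have h1 : lap (up r a) x = lap (pot a) x - lap (cv (v r) a) x := by
    have hp := pot_smooth ha hc
    have hv := cv_smooth (v_smooth hr).continuous ha hc
    have e1 : ∀ f g : Pl → ℝ, ContDiff ℝ (⊤ : ℕ∞) f → ContDiff ℝ (⊤ : ℕ∞) g → ∀ z,
        dx (fun y => f y - g y) z = dx f z - dx g z := by
      intro f g hf hg z
      unfold dx
      rw [fderiv_fun_sub (hf.differentiable (by simp) z) (hg.differentiable (by simp) z)]
      rfl
    have e2 : ∀ f g : Pl → ℝ, ContDiff ℝ (⊤ : ℕ∞) f → ContDiff ℝ (⊤ : ℕ∞) g → ∀ z,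
        dy (fun y => f y - g y) z = dy f z - dy g z := by
      intro f g hf hg z
      unfold dy
      rw [fderiv_fun_sub (hf.differentiable (by simp) z) (hg.differentiable (by simp) z)]
      rfl
    unfold lap
    have e3 : dx (up r a) = fun z => dx (pot a) z - dx (cv (v r) a) z := funext fun z => e1 _ _ hp hv z
    have e4 : dy (up r a) = fun z => dy (pot a) z - dy (cv (v r) a) z := funext fun z => e2 _ _ hp hv z
    rw [e3, e4, e1 _ _ (dx_smooth hp) (dx_smooth hv), e2 _ _ (dy_smooth hp) (dy_smooth hv)]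
    ring
  rw [h1, lap_pot ha hc, lap_cv (v_smooth hr) ha hc]
  have h2 : ∫ y, a y * lap (v r) (x - y) ≤ 0 := by
    apply integral_nonpos
    intro y
    exact mul_nonpos_of_nonneg_of_nonpos (h0 y) (lap_v_nonpos hr _)
  linarith

lemma up_mass {r : ℝ} (hr : 0 < r) {a : Pl → ℝ} (ha : Continuous a) (hc : HasCompactSupport a) :
    ∫ x, up r a x = (∫ x, a x) * ∫ x, w r x := by
  have h1 : up r a = a ⋆[ContinuousLinearMap.mul ℝ ℝ, (volume : Measure Pl)] (w r) := by
    funext x
    exact up_eq hr ha hc x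
  rw [h1, integral_convolution (ContinuousLinearMap.mul ℝ ℝ) (ha.integrable_of_hasCompactSupport hc) (w_int hr)]
  rfl

end SW
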